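import Pool.Agent.Helper53.PF.St

/-!
Project PF, module IND: independence of `1, y, y^2` over the polynomials in `s`.
-/

set_option autoImplicit false

open Polynomial

namespace PF.Helper79

private theorem ind_add {k : Type} [Field k] {P Q : k[X]} (h : P.natDegree ≠ Q.natDegree) :
    (P + Q).natDegree = P.natDegree ∨ (P + Q).natDegree = Q.natDegree := by
  rcases lt_or_gt_of_ne h with h | h
  · right; exact natDegree_add_eq_right_of_natDegree_lt h
  · left; exact natDegree_add_eq_left_of_natDegree_lt h

private theorem ind_three {k : Type} [Field k] {P Q R : k[X]}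
    (hPQ : P ≠ 0 → Q ≠ 0 → P.natDegree ≠ Q.natDegree)
    (hPR : P ≠ 0 → R ≠ 0 → P.natDegree ≠ R.natDegree)
    (hQR : Q ≠ 0 → R ≠ 0 → Q.natDegree ≠ R.natDegree) (h : P + Q + R = 0) :
    P = 0 ∧ Q = 0 ∧ R = 0 := by
  by_cases hP : P = 0
  · by_cases hQ : Q = 0
    · exact ⟨hP, hQ, by rw [hP, hQ] at h; simpa using h⟩
    · by_cases hR : R = 0
      · exact absurd (by rw [hP, hR] at h; simpa using h) hQ
      · have : Q = -R := by rw [hP, zero_add] at h; exact eq_neg_of_add_eq_zero_left h
        exact absurd (by rw [this, natDegree_neg]) (hQR hQ hR)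
  · by_cases hQ : Q = 0
    · by_cases hR : R = 0
      · exact absurd (by rw [hQ, hR] at h; simpa using h) hP
      · have : P = -R := by rw [hQ, add_zero] at h; exact eq_neg_of_add_eq_zero_left h
        exact absurd (by rw [this, natDegree_neg]) (hPR hP hR)
    · by_cases hR : R = 0
      · have : P = -Q := by rw [hR, add_zero] at h; exact eq_neg_of_add_eq_zero_left h
        exact absurd (by rw [this, natDegree_neg]) (hPQ hP hQ)
      · have h1 : R = -(P + Q) := eq_neg_of_add_eq_zero_right h
        have h2 : R.natDegree = (P + Q).natDegree := by rw [h1, natDegree_neg]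
        rcases ind_add (hPQ hP hQ) with h3 | h3
        · exact absurd (by rw [h2, h3]) (hPR hP hR)
        · exact absurd (by rw [h2, h3]) (hQR hQ hR)

private theorem ind_comp {k : Type} [Field k] {s a : k[X]} (hs : s.natDegree = 3)
    (h : a.comp s = 0) : a = 0 := by
  rcases comp_eq_zero_iff.1 h with h | ⟨-, h⟩
  · exact h
  · rw [h, natDegree_C] at hs
    omega

theorem holds_IND : PF.StIND := by
  intro k _ s y a b c hs hy h
  have hy0 : y ≠ 0 := by
    rintro rfl
    exact hy (by simp)
  have h3 := ind_three (P := a.comp s) (Q := b.comp s * y) (R := c.comp s * y ^ 2) ?_ ?_ ?_ h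
  · obtain ⟨ha, hb, hc⟩ := h3
    refine ⟨ind_comp hs ha, ind_comp hs ?_, ind_comp hs ?_⟩
    · exact (mul_eq_zero.1 hb).resolve_right hy0
    · exact (mul_eq_zero.1 hc).resolve_right (pow_ne_zero 2 hy0)
  · intro h1 h2
    have h2' : b.comp s ≠ 0 := left_ne_zero_of_mul h2
    rw [natDegree_mul h2' hy0, natDegree_comp, natDegree_comp, hs]
    omega
  · intro h1 h2
    have h2' : c.comp s ≠ 0 := left_ne_zero_of_mul h2
    rw [natDegree_mul h2' (pow_ne_zero 2 hy0), natDegree_comp, natDegree_comp, natDegree_pow, hs]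
    omega
  · intro h1 h2
    have h1' : b.comp s ≠ 0 := left_ne_zero_of_mul h1
    have h2' : c.comp s ≠ 0 := left_ne_zero_of_mul h2
    rw [natDegree_mul h2' (pow_ne_zero 2 hy0), natDegree_mul h1' hy0, natDegree_comp,
      natDegree_comp, natDegree_pow, hs]
    omega

end PF.Helper79
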